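import Pool.Agent.V1171.MV.Shap
import Pool.Agent.H75R3.Khin

set_option autoImplicit false

namespace V1171.MV

open Finset
open scoped ENNReal

instance fact43 : Fact ((1:ℝ≥0∞) ≤ 4 / 3) := ⟨by
  rw [ENNReal.le_div_iff_mul_le (by norm_num) (by norm_num)]
  norm_num⟩

theorem toReal43 : (4 / 3 : ℝ≥0∞).toReal = 4 / 3 := by
  rw [ENNReal.toReal_div]; norm_num

/-- the target space -/
abbrev Y43 : Type := lp (fun _ : ℕ => ℂ) (4 / 3)

/-- block parameter -/
def el (k : ℕ) : ℕ := Nat.log 2 (k + 1) / 7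

noncomputable def am (k : ℕ) : ℝ := ((2:ℝ) ^ (2 * el k))⁻¹

theorem am_pos (k : ℕ) : 0 < am k := by unfold am; positivity

/-- scalar coefficients of the symbol -/
noncomputable def mu (n : ℕ) : ℝ :=
  if 1 ≤ n - 2 ^ Nat.log 2 n ∧ n - 2 ^ Nat.log 2 n ≤ 2 ^ (2 * el (Nat.log 2 n)) then
    am (Nat.log 2 n) * (rsp (2 * el (Nat.log 2 n))).1 (n - 2 ^ Nat.log 2 n - 1) else 0

noncomputable def Mv (n : ℕ) : Y43 := lp.single (4 / 3) (Nat.log 2 n) ((mu n : ℝ) : ℂ)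

theorem mu_abs_le (n : ℕ) : |mu n| ≤ am (Nat.log 2 n) := by
  unfold mu
  split_ifs with h
  · rw [abs_mul, (rsp_sign _ _).1, mul_one, abs_of_pos (am_pos _)]
  · rw [abs_zero]; exact (am_pos _).le

theorem norm_Mv (n : ℕ) : ‖Mv n‖ = |mu n| := by
  unfold Mv
  rw [lp.norm_single (by simp)]
  simp

theorem log_block (k j : ℕ) (hj : j < 2 ^ k) : Nat.log 2 (2 ^ k + j) = k := by
  rw [Nat.log_eq_iff (Or.inr ⟨by norm_num, by positivity⟩)]
  refine ⟨by omega, ?_⟩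
  rw [pow_succ]
  omega

theorem mu_block (k j : ℕ) (hj : j < 2 ^ k) : mu (2 ^ k + j) =
    if 1 ≤ j ∧ j ≤ 2 ^ (2 * el k) then am k * (rsp (2 * el k)).1 (j - 1) else 0 := by
  unfold mu
  rw [log_block k j hj, Nat.add_sub_cancel_left]

theorem mu_pow (k : ℕ) : mu (2 ^ k) = 0 := by
  have := mu_block k 0 (by positivity)
  rw [add_zero] at this
  rw [this, if_neg (by omega)]

theorem mu_zero : mu 0 = 0 := by
  unfold mu
  rw [if_neg]
  simp

theorem mu_block_abs (k j : ℕ) (hj : j < 2 ^ k) : |mu (2 ^ k + j)| =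
    if 1 ≤ j ∧ j ≤ 2 ^ (2 * el k) then am k else 0 := by
  rw [mu_block k j hj]
  split_ifs with h
  · rw [abs_mul, (rsp_sign _ _).1, mul_one, abs_of_pos (am_pos _)]
  · simp

theorem block_sum (k : ℕ) : ∑ n ∈ Ico (2 ^ k) (2 ^ (k + 1)), |mu n| ≤ 1 := by
  have h1 : ∑ n ∈ Ico (2 ^ k) (2 ^ (k + 1)), |mu n| = ∑ j ∈ range (2 ^ k), |mu (2 ^ k + j)| := by
    rw [sum_Ico_eq_sum_range]
    congr 2
    rw [pow_succ]
    omega
  rw [h1]
  calc ∑ j ∈ range (2 ^ k), |mu (2 ^ k + j)|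
      = ∑ j ∈ range (2 ^ k), if 1 ≤ j ∧ j ≤ 2 ^ (2 * el k) then am k else 0 :=
        sum_congr rfl fun j hj => mu_block_abs k j (mem_range.mp hj)
    _ = ∑ j ∈ (range (2 ^ k)).filter (fun j => 1 ≤ j ∧ j ≤ 2 ^ (2 * el k)), am k := by
        rw [sum_filter]
    _ ≤ ∑ j ∈ Icc 1 (2 ^ (2 * el k)), am k := by
        apply sum_le_sum_of_subset_of_nonneg
        · intro j hj
          rw [mem_filter] at hj
          rw [mem_Icc]
          exact hj.2
        · intro _ _ _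
          exact (am_pos k).le
    _ = 1 := by
        rw [sum_const, Nat.card_Icc, Nat.add_sub_cancel, nsmul_eq_mul]
        unfold am
        push_cast
        exact mul_inv_cancel₀ (by positivity)

theorem diff_sum (k : ℕ) : ∑ n ∈ Ico (2 ^ k) (2 ^ (k + 1)), ‖Mv (n + 1) - Mv n‖ ≤ 2 := by
  have h1 : ∑ n ∈ Ico (2 ^ k) (2 ^ (k + 1)), ‖Mv (n + 1) - Mv n‖ ≤
      ∑ n ∈ Ico (2 ^ k) (2 ^ (k + 1)), (|mu (n + 1)| + |mu n|) := by
    apply sum_le_sum
    intro n _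
    refine (norm_sub_le _ _).trans ?_
    rw [norm_Mv, norm_Mv]
  have h2 : ∑ n ∈ Ico (2 ^ k) (2 ^ (k + 1)), |mu (n + 1)| ≤ 1 := by
    have hle : 2 ^ k ≤ 2 ^ (k + 1) := Nat.pow_le_pow_right (by norm_num) (by omega)
    have e1 : ∑ n ∈ Ico (2 ^ k) (2 ^ (k + 1)), |mu (n + 1)| =
        ∑ n ∈ Ico (2 ^ k + 1) (2 ^ (k + 1) + 1), |mu n| := by
      rw [← sum_Ico_add' (fun n => |mu n|) (2 ^ k) (2 ^ (k + 1)) 1]
    have e2 : ∑ n ∈ Ico (2 ^ k) (2 ^ (k + 1) + 1), |mu n| =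
        ∑ n ∈ Ico (2 ^ k) (2 ^ (k + 1)), |mu n| + |mu (2 ^ (k + 1))| :=
      sum_Ico_succ_top hle _
    have e3 : ∑ n ∈ Ico (2 ^ k) (2 ^ (k + 1) + 1), |mu n| =
        |mu (2 ^ k)| + ∑ n ∈ Ico (2 ^ k + 1) (2 ^ (k + 1) + 1), |mu n| :=
      sum_eq_sum_Ico_succ_bot (by omega) _
    rw [mu_pow, abs_zero, add_zero] at e2
    rw [mu_pow, abs_zero, zero_add] at e3
    rw [e1, ← e3, e2]
    exact block_sum k
  rw [sum_add_distrib] at h1
  have := block_sum k
  linarith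

theorem var_sum (n : ℕ → ℕ) (N : ℕ) (h : ∀ i < N, n i ≤ n (i + 1)) :
    n 0 ≤ n N ∧ ∑ i ∈ range N, ‖Mv (n (i + 1)) - Mv (n i)‖ ≤
      ∑ q ∈ Ico (n 0) (n N), ‖Mv (q + 1) - Mv q‖ := by
  induction N with
  | zero => simp
  | succ N ih =>
    obtain ⟨h1, h2⟩ := ih fun i hi => h i (by omega)
    have h3 := h N (by omega)
    refine ⟨h1.trans h3, ?_⟩
    rw [sum_range_succ, ← sum_Ico_consecutive _ h1 h3]
    refine add_le_add h2 ?_
    have := dist_le_Ico_sum_dist Mv h3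
    rw [dist_comm, dist_eq_norm] at this
    refine this.trans (le_of_eq ?_)
    apply sum_congr rfl
    intro q _
    rw [dist_comm, dist_eq_norm]

theorem sum_rpow_le {N : ℕ} (x : ℕ → ℝ) (hx : ∀ i, 0 ≤ x i) (s : ℝ) (hs : 1 ≤ s) (B : ℝ)
    (hB : ∑ i ∈ range N, x i ≤ B) : (∑ i ∈ range N, x i ^ s) ^ (1 / s) ≤ B := by
  set X := ∑ i ∈ range N, x i with hX
  have hX0 : 0 ≤ X := sum_nonneg fun i _ => hx i
  have h1 : ∑ i ∈ range N, x i ^ s ≤ X ^ s := by
    rcases eq_or_lt_of_le hX0 with h | h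
    · have h0 : ∀ i ∈ range N, x i = 0 :=
        (sum_eq_zero_iff_of_nonneg (fun i _ => hx i)).mp h.symm
      rw [← h]
      rw [Real.zero_rpow (by linarith)]
      apply le_of_eq
      apply sum_eq_zero
      intro i hi
      rw [h0 i hi, Real.zero_rpow (by linarith)]
    · have h2 : ∀ i ∈ range N, x i ^ s ≤ x i * X ^ (s - 1) := by
        intro i hi
        rcases eq_or_lt_of_le (hx i) with h0 | h0
        · rw [← h0, Real.zero_rpow (by linarith), zero_mul]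
        · have e : x i ^ s = x i * x i ^ (s - 1) := by
            nth_rewrite 2 [← Real.rpow_one (x i)]
            rw [← Real.rpow_add h0]
            congr 1
            ring
          rw [e]
          apply mul_le_mul_of_nonneg_left _ (hx i)
          apply Real.rpow_le_rpow (hx i) _ (by linarith)
          exact single_le_sum (fun i _ => hx i) hi
      refine (sum_le_sum h2).trans ?_
      rw [← sum_mul, ← hX]
      have e : X ^ s = X * X ^ (s - 1) := by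
        nth_rewrite 2 [← Real.rpow_one X]
        rw [← Real.rpow_add h]
        congr 1
        ring
      rw [e]
  calc (∑ i ∈ range N, x i ^ s) ^ (1 / s) ≤ (X ^ s) ^ (1 / s) := by
        apply Real.rpow_le_rpow _ h1 (by positivity)
        exact sum_nonneg fun i _ => Real.rpow_nonneg (hx i) _
    _ = X := by
        rw [← Real.rpow_mul hX0]
        rw [mul_one_div_cancel (by linarith), Real.rpow_one]
    _ ≤ B := hB

/-! ### the fourth powers are summable -/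

theorem el_eq (L k : ℕ) (h1 : 2 ^ (7 * L) ≤ k + 1) (h2 : k + 1 < 2 ^ (7 * L + 7)) : el k = L := by
  unfold el
  have h3 : 7 * L ≤ Nat.log 2 (k + 1) := Nat.le_log_of_pow_le (by norm_num) h1
  have h4 : Nat.log 2 (k + 1) < 7 * L + 7 := Nat.log_lt_of_lt_pow (by omega) h2
  omega

theorem am_four_aux (L : ℕ) : ∑ k ∈ range (2 ^ (7 * L) - 1), am k ^ 4 ≤ 256 * (1 - (2 ^ L : ℝ)⁻¹) := by
  induction L with
  | zero => simp
  | succ L ih =>
    have hpos : 1 ≤ 2 ^ (7 * L) := Nat.one_le_two_pow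
    have hle : 2 ^ (7 * L) ≤ 2 ^ (7 * (L + 1)) := Nat.pow_le_pow_right (by norm_num) (by omega)
    rw [← sum_range_add_sum_Ico _ (show 2 ^ (7 * L) - 1 ≤ 2 ^ (7 * (L + 1)) - 1 by omega)]
    have h1 : ∑ k ∈ Ico (2 ^ (7 * L) - 1) (2 ^ (7 * (L + 1)) - 1), am k ^ 4 ≤
        128 * (2 ^ L : ℝ)⁻¹ := by
      have h2 : ∀ k ∈ Ico (2 ^ (7 * L) - 1) (2 ^ (7 * (L + 1)) - 1), am k ^ 4 = ((2:ℝ) ^ (8 * L))⁻¹ := by
        intro k hk
        rw [mem_Ico] at hk
        have e7 : 7 * (L + 1) = 7 * L + 7 := by ring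
        rw [e7] at hk
        have := el_eq L k (by omega) (by omega)
        unfold am
        rw [this, inv_pow, ← pow_mul]
        congr 2
        ring
      rw [sum_congr rfl h2, sum_const, Nat.card_Ico, nsmul_eq_mul]
      have h3 : ((2 ^ (7 * (L + 1)) - 1 - (2 ^ (7 * L) - 1) : ℕ) : ℝ) ≤ 2 ^ (7 * (L + 1)) := by
        have : 2 ^ (7 * (L + 1)) - 1 - (2 ^ (7 * L) - 1) ≤ 2 ^ (7 * (L + 1)) := by omega
        exact_mod_cast this
      calc ((2 ^ (7 * (L + 1)) - 1 - (2 ^ (7 * L) - 1) : ℕ) : ℝ) * ((2:ℝ) ^ (8 * L))⁻¹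
          ≤ 2 ^ (7 * (L + 1)) * ((2:ℝ) ^ (8 * L))⁻¹ :=
            mul_le_mul_of_nonneg_right h3 (by positivity)
        _ = 128 * (2 ^ L : ℝ)⁻¹ := by
            rw [← div_eq_mul_inv, ← div_eq_mul_inv, div_eq_div_iff (by positivity) (by positivity)]
            have : (128:ℝ) = 2 ^ 7 := by norm_num
            rw [this, ← pow_add, ← pow_add]
            congr 1
            ring
    have h4 : (2 ^ (L + 1) : ℝ)⁻¹ = (2 ^ L : ℝ)⁻¹ / 2 := by
      rw [pow_succ, mul_inv]; ring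
    rw [h4]
    linarith

theorem am_four (F : Finset ℕ) : ∑ k ∈ F, am k ^ 4 ≤ 256 := by
  obtain ⟨R, hR⟩ := F.exists_nat_subset_range
  have h1 : F ⊆ range (2 ^ (7 * R) - 1) := by
    intro k hk
    have h2 := mem_range.mp (hR hk)
    rw [mem_range]
    have h3 : 7 * R < 2 ^ (7 * R) := Nat.lt_two_pow_self
    omega
  have h2 : ∑ k ∈ F, am k ^ 4 ≤ ∑ k ∈ range (2 ^ (7 * R) - 1), am k ^ 4 :=
    sum_le_sum_of_subset_of_nonneg h1 fun k _ _ => by have := am_pos k; positivity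
  have h3 := am_four_aux R
  have h4 : (0:ℝ) < (2 ^ R : ℝ)⁻¹ := by positivity
  linarith

/-! ### R-boundedness -/

theorem holder43 (F : Finset ℕ) (a w : ℕ → ℝ) (ha : ∀ k, 0 ≤ a k) (hw : ∀ k, 0 ≤ w k)
    (hA : ∑ k ∈ F, a k ^ 4 ≤ 256) :
    ∑ k ∈ F, (a k * w k) ^ (4 / 3 : ℝ) ≤ (4 * Real.sqrt (∑ k ∈ F, w k ^ 2)) ^ (4 / 3 : ℝ) := by
  have hpq : Real.HolderConjugate 3 (3 / 2) := by
    rw [Real.holderConjugate_iff]
    norm_num
  have h1 := Real.inner_le_Lp_mul_Lq F (fun k => a k ^ (4 / 3 : ℝ)) (fun k => w k ^ (4 / 3 : ℝ)) hpq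
  have e1 : ∀ k, |a k ^ (4 / 3 : ℝ)| ^ (3 : ℝ) = a k ^ 4 := by
    intro k
    rw [abs_of_nonneg (Real.rpow_nonneg (ha k) _), ← Real.rpow_mul (ha k),
      ← Real.rpow_natCast (a k) 4]
    norm_num
  have e2 : ∀ k, |w k ^ (4 / 3 : ℝ)| ^ (3 / 2 : ℝ) = w k ^ 2 := by
    intro k
    rw [abs_of_nonneg (Real.rpow_nonneg (hw k) _), ← Real.rpow_mul (hw k),
      ← Real.rpow_natCast (w k) 2]
    norm_num
  simp_rw [e1, e2] at h1
  have hW : 0 ≤ ∑ k ∈ F, w k ^ 2 := sum_nonneg fun k _ => by positivity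
  calc ∑ k ∈ F, (a k * w k) ^ (4 / 3 : ℝ) = ∑ k ∈ F, a k ^ (4 / 3 : ℝ) * w k ^ (4 / 3 : ℝ) :=
        sum_congr rfl fun k _ => Real.mul_rpow (ha k) (hw k)
    _ ≤ _ := h1
    _ ≤ (256:ℝ) ^ (1 / 3 : ℝ) * (∑ k ∈ F, w k ^ 2) ^ (1 / (3 / 2) : ℝ) := by
        apply mul_le_mul_of_nonneg_right _ (Real.rpow_nonneg hW _)
        apply Real.rpow_le_rpow _ hA (by norm_num)
        exact sum_nonneg fun k _ => by have := ha k; positivity
    _ = (4 * Real.sqrt (∑ k ∈ F, w k ^ 2)) ^ (4 / 3 : ℝ) := by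
        rw [Real.mul_rpow (by norm_num) (Real.sqrt_nonneg _), Real.sqrt_eq_rpow,
          ← Real.rpow_mul hW]
        congr 1
        · have : (256:ℝ) = 4 ^ (4:ℝ) := by norm_num
          rw [this, ← Real.rpow_mul (by norm_num)]
          norm_num
        · norm_num

theorem norm43 (F : Finset ℕ) (y : ℕ → ℂ) (w : ℕ → ℝ) (hw : ∀ k, 0 ≤ w k)
    (h : ∀ k ∈ F, ‖y k‖ ≤ am k * w k) :
    ‖∑ k ∈ F, (lp.single (4 / 3) k (y k) : Y43)‖ ≤ 4 * Real.sqrt (∑ k ∈ F, w k ^ 2) := by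
  have h1 := lp.norm_sum_single (E := fun _ : ℕ => ℂ) (p := 4 / 3) (by rw [toReal43]; norm_num) y F
  rw [toReal43] at h1
  have h2 : ∑ k ∈ F, ‖y k‖ ^ (4 / 3 : ℝ) ≤ ∑ k ∈ F, (am k * w k) ^ (4 / 3 : ℝ) :=
    sum_le_sum fun k hk => Real.rpow_le_rpow (norm_nonneg _) (h k hk) (by norm_num)
  have h3 := h2.trans (holder43 F am w (fun k => (am_pos k).le) hw (am_four F))
  rw [← h1] at h3
  exact (Real.rpow_le_rpow_iff (norm_nonneg _) (by positivity) (by norm_num)).mp h3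

theorem regroup (N : ℕ) (κ : ℕ → ℕ) (c : ℕ → ℂ) :
    ∑ n ∈ range N, (lp.single (4 / 3) (κ n) (c n) : Y43) =
      ∑ k ∈ (range N).image κ, (lp.single (4 / 3) k (∑ n ∈ range N, if κ n = k then c n else 0) : Y43) := by
  have h1 : ∀ k, (lp.single (4 / 3) k (∑ n ∈ range N, if κ n = k then c n else 0) : Y43) =
      ∑ n ∈ range N, (lp.single (4 / 3) k (if κ n = k then c n else 0) : Y43) := by
    intro k
    exact map_sum (lp.singleAddMonoidHom (E := fun _ : ℕ => ℂ) (4 / 3) k) _ _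
  simp_rw [h1]
  rw [sum_comm]
  apply sum_congr rfl
  intro n hn
  rw [sum_eq_single (κ n)]
  · rw [if_pos rfl]
  · intro k _ hk
    rw [if_neg (Ne.symm hk), lp.single_zero]
  · intro h
    exact absurd (mem_image_of_mem κ hn) h

theorem rb_main (N : ℕ) (κ : ℕ → ℕ) (b x : ℕ → ℂ) (hb : ∀ n, ‖b n‖ ≤ am (κ n)) :
    ∑ u ∈ (range N).powerset, ‖∑ n ∈ range N,
        (lp.single (4 / 3) (κ n) ((if n ∈ u then (1:ℂ) else -1) * (x n * b n)) : Y43)‖ ≤
      8 * ∑ u ∈ (range N).powerset, ‖H75R3.sg (range N) u x‖ := by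
  classical
  set F := (range N).image κ with hF
  set yb : ℕ → ℕ → ℂ := fun k n => if κ n = k then x n * b n else 0 with hyb
  set w : Finset ℕ → ℕ → ℝ := fun u k => ‖H75R3.sg (range N) u (yb k)‖ / am k with hw
  have h1 : ∀ u, ‖∑ n ∈ range N,
        (lp.single (4 / 3) (κ n) ((if n ∈ u then (1:ℂ) else -1) * (x n * b n)) : Y43)‖ ≤
      4 * Real.sqrt (∑ k ∈ F, w u k ^ 2) := by
    intro u
    rw [regroup]
    apply norm43
    · intro k
      have := am_pos k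
      simp only [hw]
      positivity
    · intro k _
      simp only [hw]
      rw [mul_div_cancel₀ _ (am_pos k).ne']
      apply le_of_eq
      congr 1
      unfold H75R3.sg
      apply sum_congr rfl
      intro n _
      simp only [hyb]
      split_ifs <;> simp
  have h2 : ∑ u ∈ (range N).powerset, ∑ k ∈ F, w u k ^ 2 ≤ 2 ^ N * ∑ n ∈ range N, ‖x n‖ ^ 2 := by
    rw [sum_comm]
    have h3 : ∀ k ∈ F, ∑ u ∈ (range N).powerset, w u k ^ 2 ≤
        2 ^ N * ∑ n ∈ range N, if κ n = k then ‖x n‖ ^ 2 else 0 := by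
      intro k _
      simp only [hw]
      have h4 := H75R3.second_moment (range N) (yb k)
      rw [card_range] at h4
      simp_rw [div_pow]
      rw [← sum_div, h4, mul_div_assoc]
      apply mul_le_mul_of_nonneg_left _ (by positivity)
      rw [sum_div]
      apply sum_le_sum
      intro n _
      simp only [hyb]
      split_ifs with h
      · rw [norm_mul, mul_pow, div_le_iff₀ (by have := am_pos k; positivity)]
        apply mul_le_mul_of_nonneg_left _ (by positivity)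
        have := hb n
        rw [h] at this
        exact pow_le_pow_left₀ (norm_nonneg _) this 2
      · simp
    refine (sum_le_sum h3).trans ?_
    rw [← mul_sum, sum_comm]
    apply mul_le_mul_of_nonneg_left _ (by positivity)
    apply sum_le_sum
    intro n hn
    rw [sum_ite_eq, if_pos (mem_image_of_mem κ hn)]
  have h5 : ∑ u ∈ (range N).powerset, Real.sqrt (∑ k ∈ F, w u k ^ 2) ≤
      2 ^ N * Real.sqrt (∑ n ∈ range N, ‖x n‖ ^ 2) := by
    have h6 : (∑ u ∈ (range N).powerset, Real.sqrt (∑ k ∈ F, w u k ^ 2)) ^ 2 ≤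
        ((range N).powerset.card : ℝ) * ∑ u ∈ (range N).powerset, Real.sqrt (∑ k ∈ F, w u k ^ 2) ^ 2 :=
      sq_sum_le_card_mul_sum_sq
    have h7 : ∀ u, Real.sqrt (∑ k ∈ F, w u k ^ 2) ^ 2 = ∑ k ∈ F, w u k ^ 2 := fun u =>
      Real.sq_sqrt (sum_nonneg fun _ _ => sq_nonneg _)
    simp_rw [h7] at h6
    rw [card_powerset, card_range] at h6
    push_cast at h6
    have hX : 0 ≤ ∑ n ∈ range N, ‖x n‖ ^ 2 := sum_nonneg fun _ _ => by positivity
    have h8 : (∑ u ∈ (range N).powerset, Real.sqrt (∑ k ∈ F, w u k ^ 2)) ^ 2 ≤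
        (2 ^ N * Real.sqrt (∑ n ∈ range N, ‖x n‖ ^ 2)) ^ 2 := by
      rw [mul_pow, Real.sq_sqrt hX]
      calc _ ≤ _ := h6
        _ ≤ 2 ^ N * (2 ^ N * ∑ n ∈ range N, ‖x n‖ ^ 2) :=
          mul_le_mul_of_nonneg_left h2 (by positivity)
        _ = _ := by ring
    exact (abs_le_of_sq_le_sq' h8 (by positivity)).2
  have h9 := H75R3.khintchine (range N) x
  rw [card_range] at h9
  calc ∑ u ∈ (range N).powerset, ‖∑ n ∈ range N,
        (lp.single (4 / 3) (κ n) ((if n ∈ u then (1:ℂ) else -1) * (x n * b n)) : Y43)‖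
      ≤ ∑ u ∈ (range N).powerset, 4 * Real.sqrt (∑ k ∈ F, w u k ^ 2) := sum_le_sum fun u _ => h1 u
    _ ≤ 4 * (2 ^ N * Real.sqrt (∑ n ∈ range N, ‖x n‖ ^ 2)) := by
        rw [← mul_sum]
        linarith
    _ ≤ 8 * ∑ u ∈ (range N).powerset, ‖H75R3.sg (range N) u x‖ := by
        have h10 : 0 ≤ 2 ^ N * Real.sqrt (∑ n ∈ range N, ‖x n‖ ^ 2) := by positivity
        nlinarith

end V1171.MV
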