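import Pool.Agent.V1171.MV.Unb

set_option autoImplicit false

namespace V1171.MV

open Finset MeasureTheory FourierTransform SchwartzMap
open scoped ENNReal

/-- decay of the fourth power of `phi` -/
theorem phi_decay : ∃ B : ℝ, 0 < B ∧ ∀ x : ℝ, ‖phi x‖ ^ 4 ≤ B * (1 + x ^ 2)⁻¹ := by
  obtain ⟨C0, h0⟩ := phi.decay 0 0
  obtain ⟨C1, h1⟩ := phi.decay 2 0
  have e0 : ∀ x, ‖phi x‖ ≤ C0 := by
    intro x
    have := h0.2 x
    simpa using this
  have e1 : ∀ x : ℝ, x ^ 2 * ‖phi x‖ ≤ C1 := by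
    intro x
    have := h1.2 x
    simpa using this
  have hC0 : 0 < C0 := h0.1
  have hC1 : 0 < C1 := h1.1
  refine ⟨C0 ^ 3 * (C0 + C1), by positivity, fun x => ?_⟩
  have h2 : (1 + x ^ 2) * ‖phi x‖ ≤ C0 + C1 := by
    have := e0 x
    have := e1 x
    linarith
  have h3 : ‖phi x‖ ≤ (C0 + C1) * (1 + x ^ 2)⁻¹ := by
    rw [← div_eq_mul_inv, le_div_iff₀ (by positivity)]
    linarith
  have h4 : ‖phi x‖ ^ 3 ≤ C0 ^ 3 := pow_le_pow_left₀ (norm_nonneg _) (e0 x) 3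
  calc ‖phi x‖ ^ 4 = ‖phi x‖ ^ 3 * ‖phi x‖ := by ring
    _ ≤ C0 ^ 3 * ((C0 + C1) * (1 + x ^ 2)⁻¹) :=
      mul_le_mul h4 h3 (norm_nonneg _) (by positivity)
    _ = _ := by ring

/-- the weights -/
noncomputable def wt (n : ℤ) : ℝ := 3 * (1 + (n:ℝ) ^ 2)⁻¹

theorem wt_le {n : ℤ} {x : ℝ} (h : x ∈ Set.Ioc (n:ℝ) (n + 1)) : (1 + x ^ 2)⁻¹ ≤ wt n := by
  unfold wt
  rw [← div_eq_mul_inv, inv_eq_one_div, div_le_div_iff₀ (by positivity) (by positivity)]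
  obtain ⟨h1, h2⟩ := h
  nlinarith [sq_nonneg (x + (x - n)), sq_nonneg (2 * x - n), sq_nonneg (x - n), mul_nonneg (sub_nonneg.mpr h1.le) (sub_nonneg.mpr h2)]

theorem wt_summable : Summable wt := by
  have h1 : Summable (fun n : ℤ => 3 * (1 / (n:ℝ) ^ 2)) :=
    ((Real.summable_one_div_int_pow (p := 2)).mpr (by norm_num)).mul_left 3
  have h2 : Summable (fun n : ℤ => if n = 0 then (3:ℝ) else 0) :=
    summable_of_ne_finset_zero (s := {0}) (by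
      intro n hn
      rw [mem_singleton] at hn
      rw [if_neg hn])
  refine Summable.of_nonneg_of_le (fun n => by unfold wt; positivity) (fun n => ?_) (h1.add h2)
  unfold wt
  by_cases h : n = 0
  · subst h
    simp
  · rw [if_neg h, add_zero, one_div]
    apply mul_le_mul_of_nonneg_left _ (by norm_num)
    have hn : (0:ℝ) < (n:ℝ) ^ 2 := by
      have : (n:ℝ) ≠ 0 := by exact_mod_cast h
      positivity
    exact inv_anti₀ hn (by linarith)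

theorem lint_period (h : ℝ → ℝ≥0∞) (hper : ∀ (n : ℤ) (x : ℝ), h (x + n) = h x) (n : ℤ) :
    ∫⁻ x in Set.Ioc (n:ℝ) (n + 1), h x = ∫⁻ x in Set.Ioc (0:ℝ) 1, h x := by
  rw [← lintegral_indicator measurableSet_Ioc, ← lintegral_indicator measurableSet_Ioc]
  rw [← lintegral_add_right_eq_self _ (n:ℝ)]
  apply lintegral_congr
  intro x
  by_cases hx : x ∈ Set.Ioc (0:ℝ) 1
  · rw [Set.indicator_of_mem hx, Set.indicator_of_mem, hper]
    obtain ⟨h1, h2⟩ := hx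
    constructor <;> linarith
  · rw [Set.indicator_of_notMem hx, Set.indicator_of_notMem]
    rintro ⟨h1, h2⟩
    apply hx
    constructor <;> linarith

theorem periodize (B : ℝ) (hB : 0 < B) (u : ℝ → ℝ) (hu : ∀ x : ℝ, u x ≤ B * (1 + x ^ 2)⁻¹)
    (h : ℝ → ℝ≥0∞) (hm : Measurable h) (hper : ∀ (n : ℤ) (x : ℝ), h (x + n) = h x) :
    ∫⁻ x, ENNReal.ofReal (u x) * h x ≤
      ENNReal.ofReal (B * ∑' n, wt n) * ∫⁻ x in Set.Ioc (0:ℝ) 1, h x := by
  have h1 : ∫⁻ x, ENNReal.ofReal (u x) * h x =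
      ∑' n : ℤ, ∫⁻ x in Set.Ioc (n:ℝ) (n + 1), ENNReal.ofReal (u x) * h x := by
    rw [← lintegral_iUnion (fun n : ℤ => measurableSet_Ioc) (Set.pairwise_disjoint_Ioc_intCast ℝ),
      iUnion_Ioc_intCast, setLIntegral_univ]
  rw [h1]
  have h2 : ∀ n : ℤ, ∫⁻ x in Set.Ioc (n:ℝ) (n + 1), ENNReal.ofReal (u x) * h x ≤
      ENNReal.ofReal (B * wt n) * ∫⁻ x in Set.Ioc (0:ℝ) 1, h x := by
    intro n
    rw [← lint_period h hper n, ← lintegral_const_mul _ hm]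
    apply setLIntegral_mono (by fun_prop)
    intro x hx
    gcongr
    refine (hu x).trans ?_
    apply mul_le_mul_of_nonneg_left (wt_le hx) hB.le
  refine (ENNReal.tsum_le_tsum h2).trans ?_
  rw [ENNReal.tsum_mul_right, ← ENNReal.ofReal_tsum_of_nonneg, tsum_mul_left]
  · intro n
    unfold wt
    positivity
  · exact wt_summable.mul_left B

theorem Lac_period (L : ℕ) (n : ℤ) (x : ℝ) : Lac L (x + n) = Lac L x := by
  unfold Lac
  apply sum_congr rfl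
  intro k _
  rw [mul_add, ex_add]
  have : ((2 ^ k + 1 : ℕ) : ℝ) * (n : ℝ) = (((2 ^ k + 1 : ℕ) * n : ℤ) : ℝ) := by push_cast; ring
  rw [this, ex_int, mul_one]

theorem Lac_cont (L : ℕ) : Continuous (Lac L) := by
  unfold Lac
  apply continuous_finsetSum
  intro k _
  exact continuous_ex.comp (by fun_prop)

theorem Lac_four (L : ℕ) : ∫⁻ x in Set.Ioc (0:ℝ) 1, ENNReal.ofReal (‖Lac L x‖ ^ 4) ≤
    ENNReal.ofReal (2 * (2 ^ (7 * L)) ^ 2) := by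
  have hc : Continuous (fun x => ‖Lac L x‖ ^ 4) := (Lac_cont L).norm.pow 4
  rw [← ofReal_integral_eq_lintegral_ofReal]
  · apply ENNReal.ofReal_le_ofReal
    rw [← intervalIntegral.integral_of_le (by norm_num)]
    have := fourth (SL L)
    rw [card_SL] at this
    push_cast at this
    refine le_trans (le_of_eq ?_) this
    apply intervalIntegral.integral_congr
    intro x _
    show ‖Lac L x‖ ^ 4 = _
    unfold Lac
    push_cast
    rfl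
  · have := hc.intervalIntegrable (μ := volume) 0 1
    rw [intervalIntegrable_iff_integrableOn_Ioc_of_le (by norm_num)] at this
    exact this
  · exact Filter.Eventually.of_forall fun x => by positivity

/-- upper bound for the test functions -/
theorem f_upper : ∃ C : ℝ, 0 < C ∧ ∀ L : ℕ, ∫⁻ x, ENNReal.ofReal (‖fL L x‖ ^ 4) ≤
    ENNReal.ofReal (C * (2 ^ (2 * L)) ^ 2 * (2 ^ (7 * L)) ^ 2) := by
  obtain ⟨B, hB, hphi⟩ := phi_decay
  have hT : 0 ≤ ∑' n, wt n := tsum_nonneg fun n => by unfold wt; positivity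
  refine ⟨8 * (B * ∑' n, wt n) + 1, by positivity, fun L => ?_⟩
  have h1 : ∀ x, ‖fL L x‖ ^ 4 ≤ (4 * (2 ^ (2 * L)) ^ 2) * (‖phi x‖ ^ 4 * ‖Lac L x‖ ^ 4) := by
    intro x
    rw [fL_apply, norm_mul, norm_mul]
    have h2 := rs_bound (2 * L) (ex x) (norm_ex x)
    have h3 : ‖rsP (2 * L) (ex x)‖ ^ 4 ≤ 4 * (2 ^ (2 * L)) ^ 2 := by
      calc ‖rsP (2 * L) (ex x)‖ ^ 4 = (‖rsP (2 * L) (ex x)‖ ^ 2) ^ 2 := by ring
        _ ≤ (2 * 2 ^ (2 * L)) ^ 2 := pow_le_pow_left₀ (by positivity) h2 2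
        _ = _ := by ring
    calc (‖phi x‖ * ‖Lac L x‖ * ‖rsP (2 * L) (ex x)‖) ^ 4
        = ‖rsP (2 * L) (ex x)‖ ^ 4 * (‖phi x‖ ^ 4 * ‖Lac L x‖ ^ 4) := by ring
      _ ≤ _ := mul_le_mul_of_nonneg_right h3 (by positivity)
  have h4 : ∫⁻ x, ENNReal.ofReal (‖fL L x‖ ^ 4) ≤ ENNReal.ofReal (4 * (2 ^ (2 * L)) ^ 2) *
      ∫⁻ x, ENNReal.ofReal (‖phi x‖ ^ 4) * ENNReal.ofReal (‖Lac L x‖ ^ 4) := by
    rw [← lintegral_const_mul]
    · apply lintegral_mono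
      intro x
      show ENNReal.ofReal (‖fL L x‖ ^ 4) ≤ ENNReal.ofReal (4 * (2 ^ (2 * L)) ^ 2) *
        (ENNReal.ofReal (‖phi x‖ ^ 4) * ENNReal.ofReal (‖Lac L x‖ ^ 4))
      rw [← ENNReal.ofReal_mul (by positivity), ← ENNReal.ofReal_mul (by positivity)]
      exact ENNReal.ofReal_le_ofReal (h1 x)
    · exact ((((phi.continuous.norm.pow 4)).measurable).ennreal_ofReal).mul
        ((((Lac_cont L).norm.pow 4).measurable).ennreal_ofReal)
  have h5 := periodize B hB (fun x => ‖phi x‖ ^ 4) hphi (fun x => ENNReal.ofReal (‖Lac L x‖ ^ 4))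
    ((((Lac_cont L).norm.pow 4).measurable).ennreal_ofReal)
    (fun n x => by show ENNReal.ofReal (‖Lac L (x + n)‖ ^ 4) = _; rw [Lac_period])
  refine h4.trans ?_
  calc ENNReal.ofReal (4 * (2 ^ (2 * L)) ^ 2) *
      ∫⁻ x, ENNReal.ofReal (‖phi x‖ ^ 4) * ENNReal.ofReal (‖Lac L x‖ ^ 4)
      ≤ ENNReal.ofReal (4 * (2 ^ (2 * L)) ^ 2) * (ENNReal.ofReal (B * ∑' n, wt n) *
        ENNReal.ofReal (2 * (2 ^ (7 * L)) ^ 2)) := by
        gcongr
        refine h5.trans ?_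
        gcongr
        exact Lac_four L
    _ = ENNReal.ofReal ((4 * (2 ^ (2 * L)) ^ 2) * ((B * ∑' n, wt n) * (2 * (2 ^ (7 * L)) ^ 2))) := by
        rw [ENNReal.ofReal_mul (p := 4 * (2 ^ (2 * L)) ^ 2) (by positivity),
          ENNReal.ofReal_mul (p := B * ∑' n, wt n) (by positivity)]
    _ ≤ _ := by
        apply ENNReal.ofReal_le_ofReal
        have : (0:ℝ) ≤ (2 ^ (2 * L)) ^ 2 * (2 ^ (7 * L)) ^ 2 := by positivity
        nlinarith

/-- lower bound for the image -/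
theorem Tf_lower : ∃ (c : ℝ) (L0 : ℕ), 0 < c ∧ ∀ L ≥ L0, 1 ≤ L →
    ENNReal.ofReal (c * (2 ^ (7 * L)) ^ 3 * aL L ^ 4 * (2 ^ (2 * L)) ^ 3) ≤
      ∫⁻ x, ENNReal.ofReal (‖𝓕⁻ (fun ξ => mop ξ (𝓕 (fL L : ℝ → ℂ) ξ)) x‖ ^ 4) := by
  have hp0 : 0 < ‖phi 0‖ := norm_pos_iff.mpr phi_zero_ne
  obtain ⟨δ, hδ, hd⟩ := Metric.continuousAt_iff.mp (phi.continuous.norm.continuousAt (x := (0:ℝ)))
    (‖phi 0‖ / 2) (by positivity)
  have hlow : ∀ x : ℝ, |x| < δ → ‖phi 0‖ / 2 ≤ ‖phi x‖ := by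
    intro x hx
    have := hd (x := x) (by rw [Real.dist_eq, sub_zero]; exact hx)
    rw [Real.dist_eq, abs_lt] at this
    linarith [this.1]
  obtain ⟨L0, hL0⟩ := exists_nat_gt (1 / δ)
  refine ⟨(‖phi 0‖ / 2) ^ 4 / 128, L0, by positivity, fun L hL hL1 => ?_⟩
  set N : ℝ := 2 ^ (2 * L) with hN
  have hN0 : 0 < N := by positivity
  have hNL : (L : ℝ) ≤ N := by
    have : L ≤ 2 ^ (2 * L) := by
      have h1 : 2 * L < 2 ^ (2 * L) := Nat.lt_two_pow_self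
      omega
    rw [hN]
    exact_mod_cast this
  have hNδ : 1 / (16 * N) < δ := by
    rw [div_lt_iff₀ (by positivity)]
    rw [div_lt_iff₀ hδ] at hL0
    have : (L0 : ℝ) ≤ L := by exact_mod_cast hL
    nlinarith
  have ha : 0 < aL L := by unfold aL; positivity
  have hD : ∀ x : ℝ, |x| ≤ 1 / (16 * N) → N / 2 ≤ ‖Dir L x‖ := by
    intro x hx
    have := dir_lower (2 ^ (2 * L)) (fun j => ex (j * x)) (by
      intro j hj
      refine (ex_near _).trans ?_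
      rw [abs_mul, abs_of_nonneg (Nat.cast_nonneg j)]
      have h1 : (j : ℝ) ≤ N := by
        have : (j : ℝ) < ((2 ^ (2 * L) : ℕ) : ℝ) := by exact_mod_cast hj
        push_cast at this
        linarith
      have h2 : (j : ℝ) * |x| ≤ N * (1 / (16 * N)) :=
        mul_le_mul h1 hx (abs_nonneg _) hN0.le
      have h3 : N * (1 / (16 * N)) = 1 / 16 := by field_simp
      rw [h3] at h2
      have h4 := Real.pi_lt_four
      have h5 := Real.pi_pos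
      nlinarith)
    push_cast at this
    exact this
  have hset : ∀ x ∈ Set.Icc (-(1 / (16 * N))) (1 / (16 * N)),
      ENNReal.ofReal ((2 ^ (7 * L)) ^ 3 * (aL L * (‖phi 0‖ / 2) * (N / 2)) ^ 4) ≤
      ENNReal.ofReal (‖𝓕⁻ (fun ξ => mop ξ (𝓕 (fL L : ℝ → ℂ) ξ)) x‖ ^ 4) := by
    intro x hx
    have hx1 : |x| ≤ 1 / (16 * N) := abs_le.mpr hx
    apply ENNReal.ofReal_le_ofReal
    rw [norm_Tf hL1]
    have h1 := hlow x (lt_of_le_of_lt hx1 hNδ)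
    have h2 := hD x hx1
    gcongr
  calc ENNReal.ofReal ((‖phi 0‖ / 2) ^ 4 / 128 * (2 ^ (7 * L)) ^ 3 * aL L ^ 4 * N ^ 3)
      = ENNReal.ofReal ((2 ^ (7 * L)) ^ 3 * (aL L * (‖phi 0‖ / 2) * (N / 2)) ^ 4) *
        volume (Set.Icc (-(1 / (16 * N))) (1 / (16 * N))) := by
        rw [Real.volume_Icc, ← ENNReal.ofReal_mul (by positivity)]
        congr 1
        field_simp
        ring
    _ = ∫⁻ _ in Set.Icc (-(1 / (16 * N))) (1 / (16 * N)),
        ENNReal.ofReal ((2 ^ (7 * L)) ^ 3 * (aL L * (‖phi 0‖ / 2) * (N / 2)) ^ 4) := by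
        rw [setLIntegral_const]
    _ ≤ ∫⁻ x in Set.Icc (-(1 / (16 * N))) (1 / (16 * N)),
        ENNReal.ofReal (‖𝓕⁻ (fun ξ => mop ξ (𝓕 (fL L : ℝ → ℂ) ξ)) x‖ ^ 4) :=
        setLIntegral_mono' measurableSet_Icc hset
    _ ≤ _ := setLIntegral_le_lintegral _ _

/-- the two bounds are incompatible with a norm inequality -/
theorem incompatible (K : ℝ) (hK : 0 ≤ K)
    (h : ∀ L : ℕ, ∫⁻ x, ENNReal.ofReal (‖𝓕⁻ (fun ξ => mop ξ (𝓕 (fL L : ℝ → ℂ) ξ)) x‖ ^ 4) ≤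
      ENNReal.ofReal K * ∫⁻ x, ENNReal.ofReal (‖fL L x‖ ^ 4)) : False := by
  obtain ⟨C, hC, hup⟩ := f_upper
  obtain ⟨c, L0, hc, hlo⟩ := Tf_lower
  have key : ∀ L ≥ L0, 1 ≤ L → c * 2 ^ L ≤ K * C := by
    intro L h1 h2
    have h3 : ENNReal.ofReal (c * (2 ^ (7 * L)) ^ 3 * aL L ^ 4 * (2 ^ (2 * L)) ^ 3) ≤
        ENNReal.ofReal (K * (C * (2 ^ (2 * L)) ^ 2 * (2 ^ (7 * L)) ^ 2)) := by
      rw [ENNReal.ofReal_mul hK]
      exact ((hlo L h1 h2).trans (h L)).trans (by gcongr; exact hup L)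
    rw [ENNReal.ofReal_le_ofReal_iff (by positivity)] at h3
    unfold aL at h3
    have e1 : c * ((2:ℝ) ^ (7 * L)) ^ 3 * (((2:ℝ) ^ (2 * L))⁻¹) ^ 4 * (2 ^ (2 * L)) ^ 3 =
        (c * 2 ^ L) * (((2:ℝ) ^ (2 * L)) ^ 2 * (2 ^ (7 * L)) ^ 2) := by
      have : ((2:ℝ) ^ (7 * L)) = 2 ^ L * (2 ^ (2 * L)) ^ 3 := by
        rw [← pow_mul, ← pow_add]; congr 1; ring
      rw [this]
      field_simp
    rw [e1] at h3
    have h5 : (0:ℝ) < ((2:ℝ) ^ (2 * L)) ^ 2 * (2 ^ (7 * L)) ^ 2 := by positivity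
    have h6 : (c * 2 ^ L) * (((2:ℝ) ^ (2 * L)) ^ 2 * (2 ^ (7 * L)) ^ 2) ≤
        (K * C) * (((2:ℝ) ^ (2 * L)) ^ 2 * (2 ^ (7 * L)) ^ 2) := by
      calc _ ≤ _ := h3
        _ = _ := by ring
    exact le_of_mul_le_mul_right h6 h5
  obtain ⟨M, hM⟩ := exists_nat_gt (K * C / c)
  have h1 := key (max L0 (max 1 M)) (le_max_left _ _) ((le_max_left _ _).trans (le_max_right _ _))
  have h2 : (M : ℝ) ≤ 2 ^ (max L0 (max 1 M)) := by
    have h3 : M ≤ max L0 (max 1 M) := (le_max_right _ _).trans (le_max_right _ _)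
    have h4 : max L0 (max 1 M) < 2 ^ (max L0 (max 1 M)) := Nat.lt_two_pow_self
    exact_mod_cast (h3.trans h4.le)
  rw [div_lt_iff₀ hc] at hM
  nlinarith

end V1171.MV
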