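import Mathlib

set_option autoImplicit false

namespace V1171.MV

open Finset

/-- the Rudin-Shapiro pairs of sign sequences -/
noncomputable def rsp : ℕ → (ℕ → ℝ) × (ℕ → ℝ)
  | 0 => (fun _ => 1, fun _ => 1)
  | ν + 1 => (fun j => if j < 2 ^ ν then (rsp ν).1 j else (rsp ν).2 (j - 2 ^ ν),
      fun j => if j < 2 ^ ν then (rsp ν).1 j else -(rsp ν).2 (j - 2 ^ ν))

theorem rsp_sign (ν : ℕ) : ∀ j, |(rsp ν).1 j| = 1 ∧ |(rsp ν).2 j| = 1 := by
  induction ν with
  | zero => intro j; simp [rsp]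
  | succ ν ih =>
    intro j
    simp only [rsp]
    by_cases h : j < 2 ^ ν
    · rw [if_pos h, if_pos h]
      exact ⟨(ih j).1, (ih j).1⟩
    · rw [if_neg h, if_neg h, abs_neg]
      exact ⟨(ih _).2, (ih _).2⟩

/-- the Rudin-Shapiro polynomials -/
noncomputable def rsP (ν : ℕ) (z : ℂ) : ℂ := ∑ j ∈ range (2 ^ ν), ((rsp ν).1 j : ℂ) * z ^ j

noncomputable def rsQ (ν : ℕ) (z : ℂ) : ℂ := ∑ j ∈ range (2 ^ ν), ((rsp ν).2 j : ℂ) * z ^ j

theorem rsP_succ (ν : ℕ) (z : ℂ) : rsP (ν + 1) z = rsP ν z + z ^ (2 ^ ν) * rsQ ν z := by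
  unfold rsP rsQ
  rw [pow_succ, mul_two, sum_range_add, mul_sum]
  congr 1
  · apply sum_congr rfl
    intro j hj
    rw [mem_range] at hj
    simp only [rsp]
    rw [if_pos hj]
  · apply sum_congr rfl
    intro j hj
    simp only [rsp]
    rw [if_neg (by omega), Nat.add_sub_cancel_left, pow_add]
    ring

theorem rsQ_succ (ν : ℕ) (z : ℂ) : rsQ (ν + 1) z = rsP ν z - z ^ (2 ^ ν) * rsQ ν z := by
  unfold rsP rsQ
  rw [pow_succ, mul_two, sum_range_add, sub_eq_add_neg, mul_sum, ← sum_neg_distrib]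
  congr 1
  · apply sum_congr rfl
    intro j hj
    rw [mem_range] at hj
    simp only [rsp]
    rw [if_pos hj]
  · apply sum_congr rfl
    intro j hj
    simp only [rsp]
    rw [if_neg (by omega), Nat.add_sub_cancel_left, pow_add]
    push_cast
    ring

theorem par (a b : ℂ) : ‖a + b‖ ^ 2 + ‖a - b‖ ^ 2 = 2 * (‖a‖ ^ 2 + ‖b‖ ^ 2) := by
  have := parallelogram_law_with_norm ℝ a b
  nlinarith

theorem rs_sq (ν : ℕ) (z : ℂ) (hz : ‖z‖ = 1) : ‖rsP ν z‖ ^ 2 + ‖rsQ ν z‖ ^ 2 = 2 ^ (ν + 1) := by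
  induction ν with
  | zero => simp [rsP, rsQ, rsp]; norm_num
  | succ ν ih =>
    rw [rsP_succ, rsQ_succ, par, norm_mul, norm_pow, hz, one_pow, one_mul, ih]
    ring

theorem rs_bound (ν : ℕ) (z : ℂ) (hz : ‖z‖ = 1) : ‖rsP ν z‖ ^ 2 ≤ 2 * 2 ^ ν := by
  have := rs_sq ν z hz
  have h2 : 0 ≤ ‖rsQ ν z‖ ^ 2 := by positivity
  have h3 : (2:ℝ) ^ (ν + 1) = 2 * 2 ^ ν := by ring
  linarith

/-- sum of `1 + ... + z^{N-1}` is at least `N/2` if every term is within `1/2` of `1`. -/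
theorem dir_lower (N : ℕ) (w : ℕ → ℂ) (h : ∀ j < N, ‖w j - 1‖ ≤ 1 / 2) :
    (N : ℝ) / 2 ≤ ‖∑ j ∈ range N, w j‖ := by
  have h1 : ∑ j ∈ range N, w j = (N : ℂ) + ∑ j ∈ range N, (w j - 1) := by
    rw [sum_sub_distrib]; simp
  have h2 : ‖∑ j ∈ range N, (w j - 1)‖ ≤ N * (1 / 2) := by
    refine (norm_sum_le _ _).trans ?_
    calc ∑ j ∈ range N, ‖w j - 1‖ ≤ ∑ j ∈ range N, (1 / 2 : ℝ) :=
          sum_le_sum fun j hj => h j (mem_range.mp hj)
      _ = N * (1 / 2) := by simp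
  have h3 : (N : ℝ) = ‖(N : ℂ)‖ := by simp
  have h4 : ‖(N : ℂ)‖ ≤ ‖(N : ℂ) + ∑ j ∈ range N, (w j - 1)‖ + ‖∑ j ∈ range N, (w j - 1)‖ := by
    have := norm_sub_le ((N : ℂ) + ∑ j ∈ range N, (w j - 1)) (∑ j ∈ range N, (w j - 1))
    simpa using this
  rw [h1]
  linarith

/-- the additive character -/
noncomputable def ex (x : ℝ) : ℂ := Complex.exp ((2 * Real.pi * x : ℝ) * Complex.I)

theorem norm_ex (x : ℝ) : ‖ex x‖ = 1 := Complex.norm_exp_ofReal_mul_I _

theorem ex_add (x y : ℝ) : ex (x + y) = ex x * ex y := by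
  unfold ex
  rw [← Complex.exp_add]
  congr 1
  push_cast
  ring

theorem ex_zero : ex 0 = 1 := by simp [ex]

theorem ex_nat_mul (n : ℕ) (x : ℝ) : ex (n * x) = ex x ^ n := by
  unfold ex
  rw [← Complex.exp_nat_mul]
  congr 1
  push_cast
  ring

theorem ex_int (n : ℤ) : ex n = 1 := by
  unfold ex
  have : ((2 * Real.pi * (n : ℝ) : ℝ) : ℂ) * Complex.I = n * (2 * Real.pi * Complex.I) := by
    push_cast; ring
  rw [this, Complex.exp_int_mul_two_pi_mul_I]

theorem ex_near (x : ℝ) : ‖ex x - 1‖ ≤ 2 * Real.pi * |x| := by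
  have := Real.norm_exp_I_mul_ofReal_sub_one_le (x := 2 * Real.pi * x)
  unfold ex
  rw [mul_comm Complex.I] at this
  refine this.trans ?_
  rw [Real.norm_eq_abs, abs_mul, abs_of_pos (by positivity)]

theorem continuous_ex : Continuous ex := by
  unfold ex
  fun_prop

theorem int_ex (n : ℤ) : ∫ x in (0:ℝ)..1, ex (n * x) = if n = 0 then 1 else 0 := by
  by_cases h : n = 0
  · rw [if_pos h, h]
    simp [ex_zero]
  · rw [if_neg h]
    have hc : (2 * Real.pi * n * Complex.I : ℂ) ≠ 0 := by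
      have : (Real.pi : ℂ) ≠ 0 := by exact_mod_cast Real.pi_ne_zero
      have h3 : (n : ℂ) ≠ 0 := by exact_mod_cast h
      simp [this, h3]
    have e : ∀ x : ℝ, ex (n * x) = Complex.exp ((2 * Real.pi * n * Complex.I) * x) := by
      intro x
      unfold ex
      congr 1
      push_cast
      ring
    simp_rw [e]
    rw [integral_exp_mul_complex hc]
    have e2 : (2 * Real.pi * n * Complex.I : ℂ) * ((1:ℝ) : ℂ) = n * (2 * Real.pi * Complex.I) := by
      push_cast; ring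
    rw [e2, Complex.exp_int_mul_two_pi_mul_I]
    simp

theorem ex_conj (x : ℝ) : (starRingEnd ℂ) (ex x) = ex (-x) := by
  unfold ex
  rw [← Complex.exp_conj]
  congr 1
  rw [map_mul, Complex.conj_ofReal, Complex.conj_I]
  push_cast
  ring

/-- mean square of a trigonometric polynomial -/
theorem mean_sq {ι : Type*} (s : Finset ι) (n : ι → ℤ) :
    ∫ x in (0:ℝ)..1, ‖∑ p ∈ s, ex (n p * x)‖ ^ 2 =
      ∑ p ∈ s, ((s.filter fun q => n q = n p).card : ℝ) := by
  classical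
  have h1 : ∀ x : ℝ, ((‖∑ p ∈ s, ex (n p * x)‖ ^ 2 : ℝ) : ℂ) =
      ∑ p ∈ s, ∑ q ∈ s, ex ((n q - n p : ℤ) * x) := by
    intro x
    rw [← Complex.normSq_eq_norm_sq, ← Complex.mul_conj, map_sum, sum_mul_sum, sum_comm]
    apply sum_congr rfl
    intro p _
    apply sum_congr rfl
    intro q _
    rw [ex_conj, ← ex_add]
    congr 1
    push_cast
    ring
  have h2 : ((∫ x in (0:ℝ)..1, ‖∑ p ∈ s, ex (n p * x)‖ ^ 2 : ℝ) : ℂ) =
      ∑ p ∈ s, ∑ q ∈ s, if n q - n p = 0 then (1:ℂ) else 0 := by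
    rw [← intervalIntegral.integral_ofReal]
    simp_rw [h1]
    rw [intervalIntegral.integral_finsetSum]
    · apply sum_congr rfl
      intro p _
      rw [intervalIntegral.integral_finsetSum]
      · apply sum_congr rfl
        intro q _
        exact int_ex _
      · intro q _
        apply Continuous.intervalIntegrable
        exact continuous_ex.comp (by fun_prop)
    · intro p _
      apply Continuous.intervalIntegrable
      apply continuous_finsetSum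
      intro q _
      exact continuous_ex.comp (by fun_prop)
  have h3 : ((∑ p ∈ s, ((s.filter fun q => n q = n p).card : ℝ) : ℝ) : ℂ) =
      ∑ p ∈ s, ∑ q ∈ s, if n q - n p = 0 then (1:ℂ) else 0 := by
    push_cast
    apply sum_congr rfl
    intro p _
    simp_rw [sub_eq_zero]
    rw [sum_boole]
  exact_mod_cast h2.trans h3.symm

/-- powers of two form a Sidon set -/
theorem sidon (a b c d : ℕ) (h : 2 ^ a + 2 ^ b = 2 ^ c + 2 ^ d) :
    (c = a ∧ d = b) ∨ (c = b ∧ d = a) := by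
  wlog hab : a ≤ b generalizing a b c d with H
  · rcases H b a c d (by rw [add_comm, h]) (by omega) with h' | h'
    · right; exact h'
    · left; exact h'
  wlog hcd : c ≤ d generalizing a b c d with H
  · rcases H a b d c (by rw [h, add_comm]) hab (by omega) with h' | h'
    · right; exact ⟨h'.2, h'.1⟩
    · left; exact ⟨h'.2, h'.1⟩
  have key : ∀ a b c d : ℕ, a ≤ b → c ≤ d → 2 ^ a + 2 ^ b = 2 ^ c + 2 ^ d → ¬ b < d := by
    intro a b c d hab hcd h hbd
    have h1 : 2 ^ a ≤ 2 ^ b := Nat.pow_le_pow_right (by norm_num) hab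
    have h2 : 2 ^ (b + 1) ≤ 2 ^ d := Nat.pow_le_pow_right (by norm_num) hbd
    have h3 : 0 < 2 ^ c := by positivity
    rw [pow_succ] at h2
    omega
  have hbd : b = d := by
    have h1 := key a b c d hab hcd h
    have h2 := key c d a b hcd hab h.symm
    omega
  subst hbd
  have h1 : 2 ^ a = 2 ^ c := by omega
  have h2 : a = c := Nat.pow_right_injective (le_refl 2) h1
  left
  exact ⟨h2.symm, rfl⟩

/-- fourth moment of a lacunary polynomial -/
theorem fourth (S : Finset ℕ) :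
    ∫ x in (0:ℝ)..1, ‖∑ k ∈ S, ex ((2 ^ k + 1 : ℕ) * x)‖ ^ 4 ≤ 2 * (S.card : ℝ) ^ 2 := by
  classical
  have h1 : ∀ x : ℝ, ‖∑ k ∈ S, ex ((2 ^ k + 1 : ℕ) * x)‖ ^ 4 =
      ‖∑ p ∈ S ×ˢ S, ex (((2 ^ p.1 + 1 + (2 ^ p.2 + 1) : ℕ) : ℤ) * x)‖ ^ 2 := by
    intro x
    have : ∑ p ∈ S ×ˢ S, ex (((2 ^ p.1 + 1 + (2 ^ p.2 + 1) : ℕ) : ℤ) * x) =
        (∑ k ∈ S, ex ((2 ^ k + 1 : ℕ) * x)) ^ 2 := by
      rw [sq, sum_mul_sum, sum_product]
      apply sum_congr rfl
      intro a _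
      apply sum_congr rfl
      intro b _
      rw [← ex_add]
      congr 1
      push_cast
      ring
    rw [this, norm_pow, ← pow_mul]
  simp_rw [h1]
  rw [mean_sq]
  have h2 : ∀ p ∈ S ×ˢ S, (((S ×ˢ S).filter fun q =>
      ((2 ^ q.1 + 1 + (2 ^ q.2 + 1) : ℕ) : ℤ) = ((2 ^ p.1 + 1 + (2 ^ p.2 + 1) : ℕ) : ℤ)).card : ℝ) ≤ 2 := by
    intro p _
    have : ((S ×ˢ S).filter fun q =>
        ((2 ^ q.1 + 1 + (2 ^ q.2 + 1) : ℕ) : ℤ) = ((2 ^ p.1 + 1 + (2 ^ p.2 + 1) : ℕ) : ℤ)) ⊆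
        {p, (p.2, p.1)} := by
      intro q hq
      rw [mem_filter] at hq
      have h3 : 2 ^ p.1 + 2 ^ p.2 = 2 ^ q.1 + 2 ^ q.2 := by
        have := hq.2
        have h4 : 2 ^ q.1 + 1 + (2 ^ q.2 + 1) = 2 ^ p.1 + 1 + (2 ^ p.2 + 1) := by exact_mod_cast this
        omega
      rcases sidon _ _ _ _ h3 with h5 | h5
      · rw [mem_insert]; left; exact Prod.ext h5.1 h5.2
      · rw [mem_insert, mem_singleton]; right; exact Prod.ext h5.1 h5.2
    have h6 := (card_le_card this).trans card_le_two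
    exact_mod_cast h6
  refine (sum_le_sum h2).trans ?_
  rw [sum_const, card_product, nsmul_eq_mul]
  push_cast
  nlinarith

end V1171.MV
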