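import Pool.Agent.V1171.MV.Mult

set_option autoImplicit false

namespace V1171.MV

open Finset MeasureTheory FourierTransform SchwartzMap
open scoped ENNReal

/-- the symbol -/
noncomputable def mop (ξ : ℝ) : ℂ →L[ℂ] Y43 := ContinuousLinearMap.toSpanSingleton ℂ (Mv ⌊ξ + 1 / 2⌋₊)

theorem mop_apply (ξ : ℝ) (z : ℂ) : mop ξ z = z • Mv ⌊ξ + 1 / 2⌋₊ := rfl

noncomputable def bump : ContDiffBump (0:ℝ) := ⟨1 / 8, 1 / 4, by norm_num, by norm_num⟩

noncomputable def psi : 𝓢(ℝ, ℂ) :=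
  HasCompactSupport.toSchwartzMap (f := fun x => ((bump x : ℝ) : ℂ))
    (by
      have h := bump.hasCompactSupport
      exact h.comp_left (g := fun y : ℝ => (y : ℂ)) (by simp))
    (by
      have h : ContDiff ℝ ((⊤ : ℕ∞) : WithTop ℕ∞) (fun x => bump x) := bump.contDiff
      exact Complex.ofRealCLM.contDiff.comp h)

theorem psi_apply (x : ℝ) : psi x = ((bump x : ℝ) : ℂ) := rfl

theorem psi_zero {x : ℝ} (h : 1 / 4 ≤ |x|) : psi x = 0 := by
  rw [psi_apply]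
  have : bump x = 0 := by
    apply bump.zero_of_le_dist
    rw [Real.dist_eq, sub_zero]
    exact h
  rw [this]
  simp

noncomputable def phi : 𝓢(ℝ, ℂ) := 𝓕⁻ psi

theorem finv_eq {E : Type*} [NormedAddCommGroup E] [NormedSpace ℂ E] (f : ℝ → E) (x : ℝ) :
    𝓕⁻ f x = ∫ v, ex (v * x) • f v := by
  rw [Real.fourierInv_eq']
  apply integral_congr_ae
  apply Filter.Eventually.of_forall
  intro v
  show Complex.exp (((2 * Real.pi * inner ℝ v x : ℝ) : ℂ) * Complex.I) • f v = ex (v * x) • f v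
  have hi : inner ℝ v x = v * x := by
    simp [inner, mul_comm]
  rw [hi]
  rfl

theorem phi_apply (x : ℝ) : phi x = ∫ v, ex (v * x) * psi v := by
  have : phi x = 𝓕⁻ (psi : ℝ → ℂ) x := by
    unfold phi
    rw [fourierInv_coe]
  rw [this, finv_eq]
  rfl

theorem phi_zero_ne : phi 0 ≠ 0 := by
  rw [phi_apply]
  have h1 : ∀ v : ℝ, ex (v * 0) * psi v = ((bump v : ℝ) : ℂ) := by
    intro v
    rw [mul_zero, ex_zero, one_mul, psi_apply]
  simp_rw [h1]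
  rw [integral_complex_ofReal]
  have := bump.integral_pos (μ := volume)
  exact_mod_cast this.ne'

theorem shift_int (c x : ℝ) : ∫ v, ex (v * x) * psi (v - c) = ex (c * x) * phi x := by
  rw [phi_apply, ← integral_const_mul]
  rw [← integral_sub_right_eq_self (fun v => ex (c * x) * (ex (v * x) * psi v)) c]
  apply integral_congr_ae
  apply Filter.Eventually.of_forall
  intro v
  show ex (v * x) * psi (v - c) = ex (c * x) * (ex ((v - c) * x) * psi (v - c))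
  rw [← mul_assoc, ← ex_add]
  congr 2
  ring

theorem shift_integrable (c x : ℝ) : Integrable (fun v => ex (v * x) * psi (v - c)) := by
  have h1 : Integrable (fun v => psi (v - c)) := (psi.integrable (μ := volume)).comp_sub_right c
  refine h1.norm.mono' ?_ ?_
  · apply Continuous.aestronglyMeasurable
    exact (continuous_ex.comp (by fun_prop)).mul (psi.continuous.comp (by fun_prop))
  · apply Filter.Eventually.of_forall
    intro v
    rw [norm_mul, norm_ex, one_mul]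

/-- the levels -/
def SL (L : ℕ) : Finset ℕ := Ico (2 ^ (7 * L) - 1) (2 ^ (7 * L + 1) - 1)

theorem card_SL (L : ℕ) : (SL L).card = 2 ^ (7 * L) := by
  unfold SL
  rw [Nat.card_Ico, pow_succ]
  have : 1 ≤ 2 ^ (7 * L) := Nat.one_le_two_pow
  omega

theorem el_SL {L k : ℕ} (h : k ∈ SL L) : el k = L := by
  unfold SL at h
  rw [mem_Ico] at h
  have h1 : 2 ^ (7 * L + 1) ≤ 2 ^ (7 * L + 7) := Nat.pow_le_pow_right (by norm_num) (by omega)
  have h2 : 1 ≤ 2 ^ (7 * L) := Nat.one_le_two_pow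
  exact el_eq L k (by omega) (by omega)

theorem big_SL {L k : ℕ} (hL : 1 ≤ L) (h : k ∈ SL L) : 2 ^ (2 * L) < 2 ^ k := by
  unfold SL at h
  rw [mem_Ico] at h
  have h3 : 7 * L < 2 ^ (7 * L) := Nat.lt_two_pow_self
  exact Nat.pow_lt_pow_right (by norm_num) (by omega)

/-- amplitude at level `L` -/
noncomputable def aL (L : ℕ) : ℝ := ((2:ℝ) ^ (2 * L))⁻¹

theorem am_SL {L k : ℕ} (h : k ∈ SL L) : am k = aL L := by
  unfold am aL
  rw [el_SL h]

theorem Mv_SL {L k j : ℕ} (hL : 1 ≤ L) (h : k ∈ SL L) (hj : j < 2 ^ (2 * L)) :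
    Mv (2 ^ k + (j + 1)) =
      lp.single (4 / 3) k (((aL L : ℝ) : ℂ) * (((rsp (2 * L)).1 j : ℝ) : ℂ)) := by
  have h1 := big_SL hL h
  have h2 : j + 1 < 2 ^ k := by omega
  unfold Mv
  rw [log_block k _ h2, mu_block k _ h2, el_SL h, if_pos (by omega), am_SL h, Nat.add_sub_cancel]
  push_cast
  rfl

/-- frequencies -/
def cf (p : ℕ × ℕ) : ℕ := 2 ^ p.1 + (p.2 + 1)

noncomputable def gL (L : ℕ) : 𝓢(ℝ, ℂ) :=
  ∑ p ∈ SL L ×ˢ range (2 ^ (2 * L)),
    (((rsp (2 * L)).1 p.2 : ℝ) : ℂ) • psi.compSubConstCLM ℂ ((cf p : ℕ) : ℝ)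

theorem gL_apply (L : ℕ) (ξ : ℝ) : gL L ξ =
    ∑ p ∈ SL L ×ˢ range (2 ^ (2 * L)), (((rsp (2 * L)).1 p.2 : ℝ) : ℂ) * psi (ξ - cf p) := by
  unfold gL
  rw [_root_.sum_apply]
  rfl

theorem rsp_sq (ν j : ℕ) : (((rsp ν).1 j : ℝ) : ℂ) * (((rsp ν).1 j : ℝ) : ℂ) = 1 := by
  have h := (rsp_sign ν j).1
  rw [← Complex.ofReal_mul, ← abs_mul_abs_self, h]
  simp

theorem floor_cf {ξ : ℝ} {c : ℕ} (h : |ξ - c| < 1 / 4) : ⌊ξ + 1 / 2⌋₊ = c := by
  rw [abs_lt] at h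
  rw [Nat.floor_eq_iff (by have : (0:ℝ) ≤ c := Nat.cast_nonneg c; linarith)]
  constructor <;> linarith

theorem mop_gL {L : ℕ} (hL : 1 ≤ L) (ξ : ℝ) : mop ξ (gL L ξ) =
    ∑ p ∈ SL L ×ˢ range (2 ^ (2 * L)),
      psi (ξ - cf p) • (lp.single (4 / 3) p.1 ((aL L : ℝ) : ℂ) : Y43) := by
  rw [mop_apply, gL_apply, sum_smul]
  apply sum_congr rfl
  intro p hp
  rw [mem_product, mem_range] at hp
  by_cases h : |ξ - cf p| < 1 / 4
  · rw [floor_cf h]
    unfold cf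
    rw [Mv_SL hL hp.1 hp.2, ← lp.single_smul, ← lp.single_smul]
    congr 1
    rw [smul_eq_mul, smul_eq_mul]
    have := rsp_sq (2 * L) p.2
    calc _ = psi (ξ - ((2 ^ p.1 + (p.2 + 1) : ℕ) : ℝ)) * ((aL L : ℝ) : ℂ) *
          ((((rsp (2 * L)).1 p.2 : ℝ) : ℂ) * (((rsp (2 * L)).1 p.2 : ℝ) : ℂ)) := by ring
      _ = _ := by rw [this, mul_one]
  · rw [not_lt] at h
    rw [psi_zero h, mul_zero, zero_smul, zero_smul]

/-- the test functions -/
noncomputable def fL (L : ℕ) : 𝓢(ℝ, ℂ) := 𝓕⁻ (gL L)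

theorem fourier_fL (L : ℕ) : 𝓕 (fL L : ℝ → ℂ) = gL L := by
  rw [← fourier_coe]
  unfold fL
  rw [fourier_fourierInv_eq]

/-- the lacunary sum -/
noncomputable def Lac (L : ℕ) (x : ℝ) : ℂ := ∑ k ∈ SL L, ex ((2 ^ k + 1 : ℕ) * x)

noncomputable def Dir (L : ℕ) (x : ℝ) : ℂ := ∑ j ∈ range (2 ^ (2 * L)), ex (j * x)

theorem fL_apply (L : ℕ) (x : ℝ) : fL L x = phi x * Lac L x * rsP (2 * L) (ex x) := by
  have h1 : fL L x = 𝓕⁻ (gL L : ℝ → ℂ) x := by
    unfold fL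
    rw [fourierInv_coe]
  rw [h1, finv_eq]
  simp_rw [gL_apply, smul_eq_mul, mul_sum]
  rw [integral_finsetSum]
  · unfold Lac rsP
    rw [mul_assoc, sum_mul_sum, mul_sum, sum_product]
    apply sum_congr rfl
    intro k _
    rw [mul_sum]
    apply sum_congr rfl
    intro j _
    have e : ∀ v : ℝ, ex (v * x) * ((((rsp (2 * L)).1 (k, j).2 : ℝ) : ℂ) * psi (v - cf (k, j))) =
        (((rsp (2 * L)).1 j : ℝ) : ℂ) * (ex (v * x) * psi (v - cf (k, j))) := by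
      intro v; ring
    simp_rw [e]
    rw [integral_const_mul, shift_int, ← ex_nat_mul]
    have e2 : ex (((cf (k, j) : ℕ) : ℝ) * x) = ex ((2 ^ k + 1 : ℕ) * x) * ex (j * x) := by
      rw [← ex_add]
      congr 1
      unfold cf
      push_cast
      ring
    rw [e2]
    ring
  · intro p _
    have := (shift_integrable (cf p) x).const_mul (((rsp (2 * L)).1 p.2 : ℝ) : ℂ)
    refine this.congr (Filter.Eventually.of_forall fun v => ?_)
    show _ * (_ * _) = _ * (_ * _)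
    ring

theorem Tf_apply {L : ℕ} (hL : 1 ≤ L) (x : ℝ) :
    𝓕⁻ (fun ξ => mop ξ (𝓕 (fL L : ℝ → ℂ) ξ)) x =
      ∑ k ∈ SL L, (lp.single (4 / 3) k
        (((aL L : ℝ) : ℂ) * phi x * ex ((2 ^ k + 1 : ℕ) * x) * Dir L x) : Y43) := by
  rw [finv_eq, fourier_fL]
  simp_rw [mop_gL hL, smul_sum, ← mul_smul]
  rw [integral_finsetSum]
  · rw [sum_product]
    apply sum_congr rfl
    intro k _
    have h1 : ∀ j : ℕ, ∫ v : ℝ, (ex (v * x) * psi (v - cf (k, j))) •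
        (lp.single (4 / 3) k ((aL L : ℝ) : ℂ) : Y43) =
        (lp.single (4 / 3) k (((aL L : ℝ) : ℂ) * phi x * ex ((2 ^ k + 1 : ℕ) * x) * ex (j * x)) : Y43) := by
      intro j
      rw [integral_smul_const, shift_int, ← lp.single_smul]
      congr 1
      have e2 : ex (((cf (k, j) : ℕ) : ℝ) * x) = ex ((2 ^ k + 1 : ℕ) * x) * ex (j * x) := by
        rw [← ex_add]
        congr 1
        unfold cf
        push_cast
        ring
      rw [e2, smul_eq_mul]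
      ring
    refine (sum_congr rfl fun j _ => h1 j).trans ?_
    unfold Dir
    rw [mul_sum]
    exact (map_sum (lp.singleAddMonoidHom (E := fun _ : ℕ => ℂ) (4 / 3) k) _ _).symm
  · intro p _
    exact (shift_integrable (cf p) x).smul_const _

theorem norm_Tf {L : ℕ} (hL : 1 ≤ L) (x : ℝ) :
    ‖𝓕⁻ (fun ξ => mop ξ (𝓕 (fL L : ℝ → ℂ) ξ)) x‖ ^ 4 =
      (2 ^ (7 * L)) ^ 3 * (aL L * ‖phi x‖ * ‖Dir L x‖) ^ 4 := by
  rw [Tf_apply hL]
  set Z := ∑ k ∈ SL L, (lp.single (4 / 3) k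
        (((aL L : ℝ) : ℂ) * phi x * ex ((2 ^ k + 1 : ℕ) * x) * Dir L x) : Y43) with hZ
  have h1 := lp.norm_sum_single (E := fun _ : ℕ => ℂ) (p := 4 / 3) (by rw [toReal43]; norm_num)
    (fun k => ((aL L : ℝ) : ℂ) * phi x * ex ((2 ^ k + 1 : ℕ) * x) * Dir L x) (SL L)
  rw [toReal43, ← hZ] at h1
  have ha : 0 < aL L := by unfold aL; positivity
  have h2 : ∀ k, ‖((aL L : ℝ) : ℂ) * phi x * ex ((2 ^ k + 1 : ℕ) * x) * Dir L x‖ =
      aL L * ‖phi x‖ * ‖Dir L x‖ := by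
    intro k
    rw [norm_mul, norm_mul, norm_mul, norm_ex, mul_one, Complex.norm_real, Real.norm_eq_abs,
      abs_of_pos ha]
  simp_rw [h2] at h1
  rw [sum_const, card_SL, nsmul_eq_mul] at h1
  set W := aL L * ‖phi x‖ * ‖Dir L x‖ with hW
  have hW0 : 0 ≤ W := by positivity
  have h3 : ‖Z‖ ^ 4 = (‖Z‖ ^ (4 / 3 : ℝ)) ^ 3 := by
    rw [← Real.rpow_natCast (‖Z‖ ^ (4 / 3 : ℝ)) 3, ← Real.rpow_mul (norm_nonneg _),
      ← Real.rpow_natCast ‖Z‖ 4]
    norm_num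
  have h4 : W ^ 4 = (W ^ (4 / 3 : ℝ)) ^ 3 := by
    rw [← Real.rpow_natCast (W ^ (4 / 3 : ℝ)) 3, ← Real.rpow_mul hW0,
      ← Real.rpow_natCast W 4]
    norm_num
  rw [h3, h1, h4]
  push_cast
  ring

end V1171.MV
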